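import Pool.Agent.Y79.KE.RF2

set_option autoImplicit false
set_option linter.unusedSectionVars false
set_option linter.unusedSimpArgs false

/-! Project KE, job RF2: the main theorem. -/

namespace Pool.Agent.Y79.KE

open Pool.Agent.Y714.KE
open Pool.Agent.Y714.KF (FI sp ct nm pm ext br gl ubas ineqs pm_nonneg sp_mul sp_ne sp_le
  sp_natCast_le_one nm_pos)
open Pool.Agent.Y158.KF (sp_unit le_add_left' le_add_right')
open NumberField FractionalIdeal Module Finset
open scoped nonZeroDivisors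

/-- the final estimate -/
theorem final_est {t X ν C c1 k0 : ℝ} {R N0 cs : ℕ} (ht : 1 ≤ t) (hX : 1 ≤ X) (hν : 0 < ν)
    (hC : 0 < C) (_ : 0 ≤ c1) (_ : 0 ≤ k0) (hcs : 1 ≤ cs) :
    (R : ℝ) * ((N0 * (k0 * (1 + Real.log t))) *
      (C * ((t / X) / ν ^ 2) * (c1 * (1 + Real.log t)) ^ (cs - 1))) ≤
    ((R : ℝ) * N0 * k0 * C * c1 ^ (cs - 1) / ν ^ 2 + 1) * t * (1 + Real.log t) ^ cs / X := by
  have hlt : 0 ≤ Real.log t := Real.log_nonneg ht
  have e1 : (1 + Real.log t) ^ cs = (1 + Real.log t) ^ (cs - 1) * (1 + Real.log t) := by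
    rw [← pow_succ]
    congr 1
    omega
  have hX0 : 0 < X := by linarith
  have ht0 : 0 < t := by linarith
  calc (R : ℝ) * ((N0 * (k0 * (1 + Real.log t))) *
      (C * ((t / X) / ν ^ 2) * (c1 * (1 + Real.log t)) ^ (cs - 1)))
      = ((R : ℝ) * N0 * k0 * C * c1 ^ (cs - 1) / ν ^ 2) * (t * (1 + Real.log t) ^ cs / X) := by
        rw [e1, mul_pow]
        field_simp
    _ ≤ ((R : ℝ) * N0 * k0 * C * c1 ^ (cs - 1) / ν ^ 2 + 1) *
        (t * (1 + Real.log t) ^ cs / X) := by
        have : 0 ≤ t * (1 + Real.log t) ^ cs / X := by positivity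
        nlinarith
    _ = _ := by ring

/-- the logarithmic factor -/
theorem log_est {t X ν : ℝ} (ht : 1 ≤ t) (hX : 1 ≤ X) (hν : 0 < ν) :
    0 ≤ 1 + Real.log (1 + (t / X) / ν ^ 2) ∧ 1 + Real.log (1 + (t / X) / ν ^ 2) ≤
      (1 + Real.log (1 + 1 / ν ^ 2)) * (1 + Real.log t) := by
  have hlt : 0 ≤ Real.log t := Real.log_nonneg ht
  have hX0 : 0 < X := by linarith
  have ht0 : 0 < t := by linarith
  have h1 : 0 ≤ Real.log (1 + 1 / ν ^ 2) := Real.log_nonneg (by
    have : 0 < 1 / ν ^ 2 := by positivity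
    linarith)
  have h2 : 0 ≤ Real.log (1 + (t / X) / ν ^ 2) := Real.log_nonneg (by
    have : 0 < (t / X) / ν ^ 2 := by positivity
    linarith)
  refine ⟨by linarith, ?_⟩
  have h3 : 1 + (t / X) / ν ^ 2 ≤ t * (1 + 1 / ν ^ 2) := by
    have h4 : t / X ≤ t := div_le_self ht0.le hX
    have h5 : (t / X) / ν ^ 2 ≤ t / ν ^ 2 := by gcongr
    have h6 : t * (1 + 1 / ν ^ 2) = t + t / ν ^ 2 := by ring
    rw [h6]
    linarith
  have h4 := Real.log_le_log (by positivity) h3
  rw [Real.log_mul ht0.ne' (by positivity)] at h4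
  nlinarith [mul_nonneg h1 hlt]

section

variable {s : Type} [Fintype s] [DecidableEq s] {K : s → Type} [∀ i, Field (K i)]
  [∀ i, NumberField (K i)]

theorem rf2 (h1 : S_CR K) (h2 : S_DIV K) (h3 : S_CLS K) (h4 : S_BAS K) (h5 : S_SUPI K)
    (h6 : S_IDX K) (h7 : S_PDI K) : S_RF2 K := by
  classical
  intro hodd hn κ I
  have hn2 : 2 ≤ dg K := by omega
  have hn3 : 3 ≤ dg K := by omega
  have hcs : 1 ≤ Fintype.card s := by
    rw [Nat.one_le_iff_ne_zero]
    intro h0
    have : IsEmpty s := Fintype.card_eq_zero_iff.1 h0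
    have h1 : dg K = 0 := by simp [dg]
    omega
  obtain ⟨m, hm⟩ : ∃ m, 2 * m = dg K + 1 := by
    obtain ⟨k, hk⟩ := hodd
    exact ⟨k + 1, by omega⟩
  obtain ⟨C, hC, hCR⟩ := h1 hodd hn3 κ
  obtain ⟨R, hR, -⟩ := h3
  have hrep : ∀ J : FA K, ∃ r ∈ R, ∃ a : Al K, (∀ i, a i ≠ 0) ∧
      ((∀ i, J i ≠ 0) → ∀ i, J i = sp (a i) * (r i : FI (K i))) := by
    intro J
    by_cases hJ : ∀ i, J i ≠ 0
    · obtain ⟨r, hr, a, h⟩ := hR (fun i => Units.mk0 (J i) (hJ i))
      exact ⟨r, hr, a, fun i => (h i).1, fun _ i => (h i).2⟩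
    · obtain ⟨r, hr, -⟩ := hR (fun i => 1)
      exact ⟨r, hr, fun i => 1, fun i => one_ne_zero, fun h => absurd h hJ⟩
  choose rr hrR aa haa hJa using hrep
  obtain ⟨ν, hν⟩ : ∃ ν : ℝ, ν = ((nA (cf I) : ℚ) : ℝ) := ⟨_, rfl⟩
  have hνpos : 0 < ν := by
    have : 0 < nA (cf I) := nA_pos fun i => Units.ne_zero (I i)
    rw [hν]
    exact_mod_cast this
  obtain ⟨A, hAdef⟩ : ∃ A : FU K → ℝ, ∀ r, A r = ((nA (cf r) : ℚ) : ℝ) ^ 2 / ν ^ 2 :=
    ⟨_, fun _ => rfl⟩
  have hρ : ∀ r : FU K, (0 : ℝ) < ((nA (cf r) : ℚ) : ℝ) := by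
    intro r
    have : 0 < nA (cf r) := nA_pos fun i => Units.ne_zero (r i)
    exact_mod_cast this
  have hA : ∀ r, 0 < A r := fun r => by
    have := hρ r
    rw [hAdef]
    positivity
  choose k hk0 hk using fun r : FU K => key hodd hn2 h6 h7 r (A r)
  obtain ⟨k0, hk0d⟩ : ∃ k0 : ℝ, k0 = ∑ r ∈ R, k r := ⟨_, rfl⟩
  have hk0n : 0 ≤ k0 := by
    rw [hk0d]
    exact Finset.sum_nonneg fun r _ => hk0 r
  have hkk : ∀ r ∈ R, k r ≤ k0 := by
    intro r hr
    rw [hk0d]
    exact Finset.single_le_sum (f := k) (fun r _ => hk0 r) hr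
  obtain ⟨Tor, hTor⟩ : ∃ Tor : Finset (∀ i, (𝓞 (K i))ˣ), ∀ w : ∀ i, (𝓞 (K i))ˣ,
      w ∈ Tor ↔ ∀ i, w i ∈ Units.torsion (K i) := by
    have hfin : ∀ i, (Units.torsion (K i) : Set (𝓞 (K i))ˣ).Finite := fun i =>
      Set.finite_coe_iff.1 (inferInstanceAs (Finite (Units.torsion (K i))))
    refine ⟨Fintype.piFinset fun i => (hfin i).toFinset, fun w => ?_⟩
    simp only [Fintype.mem_piFinset, Set.Finite.mem_toFinset, SetLike.mem_coe]
  obtain ⟨N0, hN0⟩ : ∃ N0 : ℕ, N0 = 2 ^ dg K * Tor.card := ⟨_, rfl⟩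
  refine ⟨(R.card : ℝ) * N0 * k0 * C * (1 + Real.log (1 + 1 / ν ^ 2)) ^ (Fintype.card s - 1) /
    ν ^ 2 + 1, ?_, fun t X ht hX => ?_⟩
  · have h1 : 0 ≤ Real.log (1 + 1 / ν ^ 2) := Real.log_nonneg (by
      have : 0 < 1 / ν ^ 2 := by positivity
      linarith)
    positivity
  have hlt : 0 ≤ Real.log t := Real.log_nonneg ht
  have hX0 : 0 < X := by linarith
  have ht0 : 0 < t := by linarith
  obtain ⟨S, hS⟩ : ∃ S, S = {M ∈ SA κ (cf I) t | ∃ p : ℕ, p.Prime ∧ X < p ∧
      ∃ m, 2 * m = dg K + 1 ∧ Rf p m (cf I) M} := ⟨_, rfl⟩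
  rw [← hS]
  have hSfin : S.Finite := by
    rw [hS]
    exact ((hCR I t (by positivity)).1).subset fun M hM => hM.1
  have hdat : ∀ M, ∃ (p : ℕ) (x y : Al K) (u : ∀ i, (𝓞 (K i))ˣ), M ∈ S → p.Prime ∧ X < p ∧
      LT (x, y) = M ∧ ND (x, y) ∧ (∀ i, cn (x, y) i ≤ I i) ∧ NZ κ (vc (x, y)) ∧
      pm (vc (x, y)) ≤ t ∧
      nA (fun i => sp (p : K i) * (I i : FI (K i)) + sp (x i)) = (p : ℚ) ^ m * nA (cf I) ∧
      NZ κ (vc (sm (un u) (sm (aa (fun i => sp (p : K i) * (I i : FI (K i)) + sp (x i)))⁻¹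
        (x, (p : ℤ) • y)))) := by
    intro M
    by_cases hM : M ∈ S
    · rw [hS] at hM
      obtain ⟨⟨P, rfl, hct, hNd, hNz, hpm⟩, p, hp, hpX, m', hm', hRf⟩ := hM
      obtain rfl : m' = m := by omega
      obtain ⟨x, y, hL, hJn⟩ := h4 p hp m' I P (hNd.ind hn2) hct hRf
      obtain ⟨i1, i2, i3, -⟩ := LT_inv hodd hn2 hNd hL.symm
      have hNz' : NZ κ (vc (x, y)) := by
        unfold NZ
        rw [i3]
        exact hNz
      obtain ⟨n1, n2⟩ := nz_mul hodd hn2 hp i1 hNz'
      have n3 : ND (sm (aa (fun i => sp (p : K i) * (I i : FI (K i)) + sp (x i)))⁻¹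
          (x, (p : ℤ) • y)) := n1.sm fun i => inv_ne_zero (haa _ i)
      obtain ⟨u, hu⟩ := (unt (K := K) _ (n3.pm_pos hn2) (pm_ext_pos hodd (n3.pm_pos hn2))).1 κ
      refine ⟨p, x, y, u, fun _ => ⟨hp, hpX, hL, i1, ?_, hNz', ?_, hJn, ?_⟩⟩
      · rw [cn_congr hL]; exact hct
      · rw [i2]; exact hpm
      · rw [vc_sm]
        exact hu
    · exact ⟨0, 0, 0, fun _ => 1, fun h => absurd h hM⟩
  choose p x y u hD using hdat
  obtain ⟨J, hJ⟩ : ∃ J : Submodule ℤ (Al K) → FA K, ∀ M, J M = fun i =>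
    sp (p M : K i) * (I i : FI (K i)) + sp (x M i) := ⟨_, fun _ => rfl⟩
  obtain ⟨Q, hQ⟩ : ∃ Q : Submodule ℤ (Al K) → Al K × Al K, ∀ M, Q M =
    sm (un (u M)) (sm (aa (J M))⁻¹ (x M, (p M : ℤ) • y M)) := ⟨_, fun _ => rfl⟩
  have hJn : ∀ M ∈ S, nA (J M) = (p M : ℚ) ^ m * nA (cf I) := by
    intro M hM
    rw [hJ]
    exact (hD M hM).2.2.2.2.2.2.2.1
  have hJne : ∀ M ∈ S, ∀ i, J M i ≠ 0 := by
    intro M hM i h0
    have d1 := (hD M hM).1
    have h6 := hJn M hM
    have h9 : nA (J M) = 0 := by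
      rw [nA]
      refine Finset.prod_eq_zero (Finset.mem_univ i) ?_
      rw [h0, nm, map_zero]
    rw [h9] at h6
    have h7 : 0 < nA (cf I) := nA_pos fun i => Units.ne_zero (I i)
    have h8 : (0 : ℚ) < p M := by exact_mod_cast d1.pos
    have : 0 < (p M : ℚ) ^ m * nA (cf I) := by positivity
    linarith
  have hfacts : ∀ M ∈ S, ND (Q M) ∧ (∀ i, cn (Q M) i ≤ rr (J M) i) ∧
      pm (vc (Q M)) ≤ A (rr (J M)) * (t / X) ∧
      (p M : ℚ) ^ 2 * nA (cf (rr (J M))) ≤ nA (fun i => sp (p M : K i) *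
        (rr (J M) i : FI (K i)) + sp ((Q M).2 i)) := by
    intro M hM
    obtain ⟨d1, d2, d3, d4, d5, d6, d7, d8, d9⟩ := hD M hM
    rw [hAdef, hν]
    exact facts hn hm ht hX d1 d2 d4 d5 d7 (J := J M) (fun i => by rw [hJ]) (hJn M hM) (haa _)
      (hJa _ (hJne M hM)) (u M) (hQ M)
  have hQN : ∀ M ∈ S, NZ κ (vc (Q M)) := by
    intro M hM
    rw [hQ, hJ]
    exact (hD M hM).2.2.2.2.2.2.2.2
  obtain ⟨Sf, hSf⟩ : ∃ Sf, Sf = hSfin.toFinset := ⟨_, rfl⟩
  have hmem : ∀ M, M ∈ Sf ↔ M ∈ S := fun M => by rw [hSf]; exact hSfin.mem_toFinset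
  obtain ⟨N, hN⟩ : ∃ N : ℕ, N = N0 * ⌊k0 * (1 + Real.log t)⌋₊ := ⟨_, rfl⟩
  have hbound : ∀ r ∈ R, ((Sf.filter fun M => rr (J M) = r).card : ℝ) ≤
      N * (C * ((t / X) / ν ^ 2) * ((1 + Real.log (1 + 1 / ν ^ 2)) * (1 + Real.log t)) ^
        (Fintype.card s - 1)) := by
    intro r hr
    have hYt : 0 < A r * (t / X) := by
      have := hA r
      positivity
    obtain ⟨hfin, hcard⟩ := hCR r _ hYt
    have hstep : (Sf.filter fun M => rr (J M) = r).card ≤ N * hfin.toFinset.card := by
      refine card_le_mul_card_image_of_maps_to (f := fun M => LT (Q M)) ?_ N ?_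
      · intro M hM
        rw [mem_filter, hmem] at hM
        obtain ⟨hM1, hM2⟩ := hM
        obtain ⟨f1, f2, f3, -⟩ := hfacts M hM1
        rw [hM2] at f2 f3
        rw [hfin.mem_toFinset]
        exact ⟨Q M, rfl, f2, f1, hQN M hM1, f3⟩
      · intro L _
        obtain ⟨T, hT, hTp⟩ := hk r t ht L
        have hTn : T.card ≤ ⌊k0 * (1 + Real.log t)⌋₊ := by
          refine Nat.le_floor (hT.trans ?_)
          have := hkk r hr
          gcongr
        have hstep2 : ((Sf.filter fun M => rr (J M) = r).filter fun M => LT (Q M) = L).card ≤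
            N0 * T.card := by
          refine card_le_mul_card_image_of_maps_to (f := fun M => p M) ?_ _ ?_
          · intro M hM
            rw [mem_filter, mem_filter, hmem] at hM
            obtain ⟨⟨hM1, hM2⟩, hM3⟩ := hM
            obtain ⟨f1, f2, f3, f4⟩ := hfacts M hM1
            rw [hM2] at f2 f3 f4
            obtain ⟨d1, d2, -⟩ := hD M hM1
            refine hTp (p M) d1 (Q M) hM3 f2 f1 (f3.trans ?_) f4
            have := (hA r).le
            have h9 : t / X ≤ t := div_le_self ht0.le hX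
            gcongr
          · intro q _
            by_cases hq : q.Prime
            · obtain ⟨g1, g2⟩ := h2 q hq I
              rw [Set.ncard_eq_toFinset_card _ g1] at g2
              have hstep3 : (((Sf.filter fun M => rr (J M) = r).filter fun M =>
                  LT (Q M) = L).filter fun M => p M = q).card ≤ Tor.card * g1.toFinset.card := by
                refine card_le_mul_card_image_of_maps_to (f := fun M => J M) ?_ _ ?_
                · intro M hM
                  rw [mem_filter, mem_filter, mem_filter, hmem] at hM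
                  obtain ⟨⟨⟨hM1, hM2⟩, hM3⟩, hM4⟩ := hM
                  obtain ⟨d1, d2, d3, d4, d5, -⟩ := hD M hM1
                  rw [g1.mem_toFinset]
                  intro i
                  refine ⟨?_, ?_⟩
                  · rw [← hM4, hJ]
                    exact le_add_left'
                  · rw [hJ]
                    simp only
                    rw [← sup_eq_add]
                    refine sup_le ?_ (sp_le.2 ((cn_le.1 d5).1 i))
                    calc sp (p M : K i) * (I i : FI (K i)) ≤ 1 * I i := by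
                          gcongr; exact sp_natCast_le_one (p M)
                      _ = I i := one_mul _
                · intro J0 _
                  rcases Finset.eq_empty_or_nonempty ((((Sf.filter fun M => rr (J M) = r).filter
                    fun M => LT (Q M) = L).filter fun M => p M = q).filter
                    fun M => J M = J0) with hemp | ⟨M0, hM0⟩
                  · rw [hemp]
                    simp
                  · rw [mem_filter, mem_filter, mem_filter, mem_filter, hmem] at hM0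
                    obtain ⟨⟨⟨⟨m1, m2⟩, m3⟩, m4⟩, m5⟩ := hM0
                    have hfac : ∀ M, M ∈ S → LT (Q M) = L → p M = q → J M = J0 →
                        LT (sm (un (u M)) (sm (aa J0)⁻¹ (x M, (q : ℤ) • y M))) = L ∧
                        ND (x M, (q : ℤ) • y M) ∧ NZ κ (vc (x M, (q : ℤ) • y M)) := by
                      intro M n1 n3 n4 n5
                      obtain ⟨d1, d2, d3, d4, d5, d6, d7, d8, d9⟩ := hD M n1
                      rw [hQ, n4, n5] at n3
                      refine ⟨n3, ?_⟩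
                      exact nz_mul hodd hn2 hq d4 d6
                    obtain ⟨a1, a2, a3⟩ := hfac M0 m1 m3 m4 m5
                    have hai : ∀ i, (aa J0)⁻¹ i ≠ 0 := fun i => inv_ne_zero (haa _ i)
                    refine card_le_card_of_injOn (fun M i => (u M0 i)⁻¹ * u M i) ?_ ?_
                    · intro M hM
                      have hM := Finset.mem_coe.1 hM
                      rw [mem_filter, mem_filter, mem_filter, mem_filter, hmem] at hM
                      obtain ⟨⟨⟨⟨n1, n2⟩, n3⟩, n4⟩, n5⟩ := hM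
                      obtain ⟨b1, b2, b3⟩ := hfac M n1 n3 n4 n5
                      rw [Finset.mem_coe, hTor]
                      intro i
                      exact tors hodd hn2 b2 b3 a2 a3 hai (u M) (u M0) (b1.trans a1.symm) i
                    · intro M hM M' hM' huu
                      have hM := Finset.mem_coe.1 hM
                      have hM' := Finset.mem_coe.1 hM'
                      rw [mem_filter, mem_filter, mem_filter, mem_filter, hmem] at hM hM'
                      obtain ⟨⟨⟨⟨n1, n2⟩, n3⟩, n4⟩, n5⟩ := hM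
                      obtain ⟨⟨⟨⟨n1', n2'⟩, n3'⟩, n4'⟩, n5'⟩ := hM'
                      obtain ⟨b1, b2, b3⟩ := hfac M n1 n3 n4 n5
                      obtain ⟨b1', b2', b3'⟩ := hfac M' n1' n3' n4' n5'
                      obtain ⟨d1, d2, d3, d4, d5, d6, d7, d8, d9⟩ := hD M n1
                      obtain ⟨d1', d2', d3', d4', d5', d6', d7', d8', d9'⟩ := hD M' n1'
                      have huu2 : u M = u M' := by
                        funext i
                        exact mul_left_cancel (congrFun huu i)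
                      rw [sm_sm] at b1 b1'
                      rw [← huu2] at b1'
                      rw [← d3, ← d3']
                      rw [n4] at d8
                      exact uniq h5 hn hm hq d4 d4' d5 d5' d8
                        (fun i => mul_ne_zero (un_ne _ i) (hai i)) (b1.trans b1'.symm)
              refine hstep3.trans ?_
              rw [hN0, mul_comm]
              gcongr
            · rw [card_eq_zero.2]
              · exact Nat.zero_le _
              · rw [filter_eq_empty_iff]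
                intro M hM hMq
                rw [mem_filter, mem_filter, hmem] at hM
                exact hq (hMq ▸ (hD M hM.1.1).1)
        refine hstep2.trans ?_
        rw [hN]
        exact Nat.mul_le_mul_left _ hTn
    have hcard' : (hfin.toFinset.card : ℝ) ≤ C * ((t / X) / ν ^ 2) *
        ((1 + Real.log (1 + 1 / ν ^ 2)) * (1 + Real.log t)) ^ (Fintype.card s - 1) := by
      rw [← Set.ncard_eq_toFinset_card _ hfin]
      refine hcard.trans ?_
      have hρr := hρ r
      have e1 : A r * (t / X) / ((nA (cf r) : ℚ) : ℝ) ^ 2 = (t / X) / ν ^ 2 := by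
        rw [hAdef]
        field_simp
      rw [e1]
      obtain ⟨l1, l2⟩ := log_est ht hX hνpos
      gcongr
    calc ((Sf.filter fun M => rr (J M) = r).card : ℝ) ≤ ((N * hfin.toFinset.card : ℕ) : ℝ) := by
          exact_mod_cast hstep
      _ = N * (hfin.toFinset.card : ℝ) := by push_cast; ring
      _ ≤ _ := by gcongr
  have htot : (Sf.card : ℝ) ≤ R.card * (N * (C * ((t / X) / ν ^ 2) *
      ((1 + Real.log (1 + 1 / ν ^ 2)) * (1 + Real.log t)) ^ (Fintype.card s - 1))) := by
    rw [card_eq_sum_card_fiberwise (f := fun M => rr (J M)) (t := R) (fun M _ => hrR _)]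
    rw [Nat.cast_sum, ← nsmul_eq_mul]
    exact sum_le_card_nsmul _ _ _ hbound
  rw [Set.ncard_eq_toFinset_card _ hSfin, ← hSf]
  have h1' : 0 ≤ Real.log (1 + 1 / ν ^ 2) := Real.log_nonneg (by
    have : 0 < 1 / ν ^ 2 := by positivity
    linarith)
  refine htot.trans (le_trans ?_ (final_est (R := R.card) (N0 := N0) ht hX hνpos hC
    (by linarith : 0 ≤ 1 + Real.log (1 + 1 / ν ^ 2)) hk0n hcs))
  have hNle : (N : ℝ) ≤ N0 * (k0 * (1 + Real.log t)) := by
    rw [hN]
    push_cast
    gcongr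
    exact Nat.floor_le (by positivity)
  gcongr

end

end Pool.Agent.Y79.KE
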