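import Pool.Agent.Y714.KE.Bas
import Pool.Agent.Y158.KF.RF2

set_option autoImplicit false
set_option linter.unusedSectionVars false
set_option linter.unusedSimpArgs false

/-! Project KE, job RF2: failure of reducedness at large primes. -/

namespace Pool.Agent.Y79.KE

open Pool.Agent.Y714.KE
open Pool.Agent.Y714.KF (FI sp ct nm pm ext br gl ubas ineqs pm_nonneg sp_mul sp_ne sp_le
  sp_natCast_le_one nm_pos)
open Pool.Agent.Y158.KF (sp_unit le_add_left' le_add_right')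
open NumberField FractionalIdeal Module Finset
open scoped nonZeroDivisors

/-- the number of prime factors -/
theorem primes_log (A : ℝ) (e : ℕ) : ∃ k : ℝ, 0 ≤ k ∧ ∀ t : ℝ, 1 ≤ t → ∀ D : ℕ, D ≠ 0 →
    (D : ℝ) ≤ A * t ^ e → (D.primeFactors.card : ℝ) ≤ k * (1 + Real.log t) := by
  have hl2 : 0 < Real.log 2 := Real.log_pos one_lt_two
  refine ⟨(|Real.log A| + e) / Real.log 2, by positivity, fun t ht D hD hle => ?_⟩
  have hD1 : (1 : ℝ) ≤ D := by exact_mod_cast Nat.one_le_iff_ne_zero.2 hD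
  have ht0 : 0 < t := by linarith
  have hA : 0 < A := by
    by_contra h0
    push Not at h0
    have h2 : A * t ^ e ≤ 0 := mul_nonpos_of_nonpos_of_nonneg h0 (by positivity)
    linarith
  have h1 : 2 ^ D.primeFactors.card ≤ D := by
    calc 2 ^ D.primeFactors.card = ∏ _p ∈ D.primeFactors, 2 := by rw [prod_const]
      _ ≤ ∏ p ∈ D.primeFactors, p := by
          refine prod_le_prod' fun p hp => ?_
          exact (Nat.prime_of_mem_primeFactors hp).two_le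
      _ ≤ D := Nat.le_of_dvd (Nat.pos_of_ne_zero hD) (Nat.prod_primeFactors_dvd D)
  have h2 : (2 : ℝ) ^ D.primeFactors.card ≤ A * t ^ e := by
    refine le_trans ?_ hle
    exact_mod_cast h1
  have h3 := Real.log_le_log (by positivity) h2
  rw [Real.log_pow, Real.log_mul hA.ne' (by positivity), Real.log_pow] at h3
  have hlt : 0 ≤ Real.log t := Real.log_nonneg ht
  rw [div_mul_eq_mul_div, le_div_iff₀ hl2]
  have h4 := le_abs_self (Real.log A)
  have h5 := abs_nonneg (Real.log A)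
  have h6 : (0 : ℝ) ≤ e := Nat.cast_nonneg e
  nlinarith [mul_nonneg h5 hlt]

section

variable {s : Type} [Fintype s] [DecidableEq s] {K : s → Type} [∀ i, Field (K i)]
  [∀ i, NumberField (K i)]

theorem mat_eq (p : ℕ) (x y : Al K) : (x, (p : ℤ) • y) =
    glq ((1 : ℤ) : ℚ) ((0 : ℤ) : ℚ) ((0 : ℤ) : ℚ) ((p : ℤ) : ℚ) (x, y) := by
  rw [← glz_eq, glz]
  simp

theorem det_ne {p : ℕ} (hp : p.Prime) :
    ((1 : ℤ) : ℚ) * ((p : ℤ) : ℚ) - ((0 : ℤ) : ℚ) * ((0 : ℤ) : ℚ) ≠ 0 := by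
  simpa using hp.ne_zero

theorem LT_cancel {c : Al K} (hc : ∀ i, c i ≠ 0) {P Q : Al K × Al K}
    (h : LT (sm c P) = LT (sm c Q)) : LT P = LT Q := by
  have key : ∀ {P Q : Al K × Al K}, LT (sm c P) = LT (sm c Q) → ∀ z ∈ LT P, z ∈ LT Q := by
    intro P Q h z hz
    have h1 : c * z ∈ LT (sm c P) := mem_LT_sm.2 ⟨z, hz, rfl⟩
    rw [h] at h1
    obtain ⟨z', hz', h2⟩ := mem_LT_sm.1 h1
    have : z = z' := by
      funext i
      exact mul_left_cancel₀ (hc i) (congrFun h2 i)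
    rwa [this]
  exact le_antisymm (key h) (key h.symm)

theorem un_ne (u : ∀ i, (𝓞 (K i))ˣ) (i : s) : un u i ≠ 0 := Units.coe_ne_zero (u i)

/-- for a given lattice only few primes occur -/
theorem key (hodd : Odd (dg K)) (hn : 2 ≤ dg K) (h6 : S_IDX K) (h7 : S_PDI K) (r : FU K)
    (A : ℝ) : ∃ k : ℝ, 0 ≤ k ∧ ∀ t : ℝ, 1 ≤ t → ∀ L : Submodule ℤ (Al K), ∃ T : Finset ℕ,
      (T.card : ℝ) ≤ k * (1 + Real.log t) ∧
      ∀ p : ℕ, p.Prime → ∀ Q : Al K × Al K, LT Q = L → (∀ i, cn Q i ≤ r i) → ND Q →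
        pm (vc Q) ≤ A * t → (p : ℚ) ^ 2 * nA (cf r) ≤
          nA (fun i => sp (p : K i) * (r i : FI (K i)) + sp (Q.2 i)) → p ∈ T := by
  classical
  obtain ⟨C, hC, hineq⟩ := ineqs (J := Em K) (by rw [card_Em]; exact hodd)
  obtain ⟨c, hc, hidx⟩ := h6 r
  obtain ⟨k, hk0, hk⟩ := primes_log (C * A ^ (dg K - 1) / c ^ 2) (dg K - 1)
  refine ⟨k, hk0, fun t ht L => ?_⟩
  have hlt : 0 ≤ Real.log t := Real.log_nonneg ht
  by_cases hex : ∃ Q : Al K × Al K, LT Q = L ∧ (∀ i, cn Q i ≤ r i) ∧ ND Q ∧ pm (vc Q) ≤ A * t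
  · obtain ⟨Q0, hL0, hct0, hNd0, hpm0⟩ := hex
    obtain ⟨D0, hD0, hprod0, -⟩ := hidx Q0 hct0 hNd0
    refine ⟨D0.primeFactors, hk t ht D0 hD0 ?_, ?_⟩
    · have h1 := (hineq (vc Q0) (hNd0.pm_pos hn)).2.2.2
      rw [hprod0, card_Em] at h1
      have h2 : pm (vc Q0) ^ (dg K - 1) ≤ (A * t) ^ (dg K - 1) :=
        pow_le_pow_left₀ (pm_nonneg _) hpm0 _
      have h3 : (c * D0) ^ 2 ≤ C * (A * t) ^ (dg K - 1) := h1.trans (by gcongr)
      have h4 : (1 : ℝ) ≤ D0 := by exact_mod_cast Nat.one_le_iff_ne_zero.2 hD0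
      have h5 : (D0 : ℝ) ≤ (D0 : ℝ) ^ 2 := by nlinarith
      rw [div_mul_eq_mul_div, le_div_iff₀ (by positivity)]
      have h6 : C * A ^ (dg K - 1) * t ^ (dg K - 1) = C * (A * t) ^ (dg K - 1) := by
        rw [mul_pow]; ring
      rw [h6]
      calc (D0 : ℝ) * c ^ 2 ≤ (D0 : ℝ) ^ 2 * c ^ 2 := by gcongr
        _ = (c * D0) ^ 2 := by ring
        _ ≤ _ := h3
    · intro p hp Q hL hct hNd hpm hC2
      obtain ⟨D, hD, hprod, hcr⟩ := hidx Q hct hNd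
      have hdvd : p ∣ D := h7 p hp hn Q r hct hC2 D hcr
      have h1 := (LT_inv hodd hn hNd0 (hL0.trans hL.symm)).2.2.2.2
      rw [hprod, hprod0] at h1
      have h2 : c * D = c * D0 :=
        (pow_left_inj₀ (by positivity) (by positivity) two_ne_zero).1 h1
      have h3 : D = D0 := by exact_mod_cast mul_left_cancel₀ hc.ne' h2
      rw [Nat.mem_primeFactors]
      exact ⟨hp, h3 ▸ hdvd, hD0⟩
  · refine ⟨∅, ?_, fun p _ Q h1 h2 h3 h4 _ => (hex ⟨Q, h1, h2, h3, h4⟩).elim⟩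
    simp only [card_empty, Nat.cast_zero]
    positivity

/-- the transformed pair -/
theorem facts (hn : 5 ≤ dg K) {m : ℕ} (hm : 2 * m = dg K + 1) {I : FU K} {t X : ℝ} (ht : 1 ≤ t)
    (hX : 1 ≤ X) {p : ℕ} (hp : p.Prime) (hpX : X < p) {x y : Al K} (hNd : ND (x, y))
    (hct : ∀ i, cn (x, y) i ≤ I i) (hpm : pm (vc (x, y)) ≤ t) {J : FA K}
    (hJ : ∀ i, J i = sp (p : K i) * (I i : FI (K i)) + sp (x i))
    (hJn : nA J = (p : ℚ) ^ m * nA (cf I)) {a : Al K} (ha : ∀ i, a i ≠ 0) {r : FU K}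
    (hr : ∀ i, J i = sp (a i) * (r i : FI (K i))) (u : ∀ i, (𝓞 (K i))ˣ) {Q : Al K × Al K}
    (hQ : Q = sm (un u) (sm a⁻¹ (x, (p : ℤ) • y))) :
    ND Q ∧ (∀ i, cn Q i ≤ r i) ∧
    pm (vc Q) ≤ (((nA (cf r) : ℚ) : ℝ) ^ 2 / ((nA (cf I) : ℚ) : ℝ) ^ 2) * (t / X) ∧
    (p : ℚ) ^ 2 * nA (cf r) ≤ nA (fun i => sp (p : K i) * (r i : FI (K i)) + sp (Q.2 i)) := by
  have hp0 : ∀ i, (p : K i) ≠ 0 := fun i => by exact_mod_cast hp.ne_zero
  have hai : ∀ i, a⁻¹ i ≠ 0 := fun i => inv_ne_zero (ha i)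
  have hIne : ∀ i, cf I i ≠ 0 := fun i => Units.ne_zero (I i)
  have hrne : ∀ i, cf r i ≠ 0 := fun i => Units.ne_zero (r i)
  have hIpos : 0 < nA (cf I) := nA_pos hIne
  have hrpos : 0 < nA (cf r) := nA_pos hrne
  have hapos : 0 < nA (fun i => sp (a i)) := nA_pos fun i => sp_ne (ha i)
  have hpq : (0 : ℚ) < p := by exact_mod_cast hp.pos
  have hnJ : nA (fun i => sp (a i)) * nA (cf r) = (p : ℚ) ^ m * nA (cf I) := by
    rw [← hJn, ← nA_mul]
    congr 1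
    funext i
    rw [hr i]
    rfl
  have hspa : ∀ i, sp (a⁻¹ i) * sp (a i) = 1 := by
    intro i
    have : a⁻¹ i = (a i)⁻¹ := rfl
    rw [this, ← sp_mul, inv_mul_cancel₀ (ha i)]
    exact spanSingleton_one
  have hnai : nA (fun i => sp (a⁻¹ i)) * nA (fun i => sp (a i)) = 1 := by
    rw [← nA_mul]
    have : (fun i => sp (a⁻¹ i) * sp (a i)) = fun i : s => (1 : FI (K i)) := by
      funext i
      exact hspa i
    rw [this]
    simp only [nA, nm, map_one, prod_const_one]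
  have hJr : ∀ i, sp (a⁻¹ i) * J i = (r i : FI (K i)) := by
    intro i
    rw [hr i, ← mul_assoc, hspa i, one_mul]
  obtain ⟨hx, hy⟩ := cn_le.1 hct
  have hx' : ∀ i, sp (x i) ≤ (I i : FI (K i)) := fun i => sp_le.2 (hx i)
  have hy' : ∀ i, sp (y i) ≤ (I i : FI (K i)) := fun i => sp_le.2 (hy i)
  have hpI : ∀ i, sp (p : K i) * (I i : FI (K i)) ≤ I i := by
    intro i
    calc sp (p : K i) * (I i : FI (K i)) ≤ 1 * I i := by gcongr; exact sp_natCast_le_one p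
      _ = I i := one_mul _
  have hJI : ∀ i, J i ≤ I i := by
    intro i
    rw [hJ i, ← sup_eq_add]
    exact sup_le (hpI i) (hx' i)
  have hpy : ∀ i, ((p : ℤ) • y) i = (p : K i) * y i := by
    intro i
    simp
  refine ⟨?_, ?_, ?_, ?_⟩
  · rw [hQ]
    refine ND.sm (ND.sm ?_ hai) (un_ne u)
    rw [mat_eq]
    exact hNd.glq (det_ne hp)
  · intro i
    have h1 : cn Q i = sp (un u i) * (sp (a⁻¹ i) * cn (x, (p : ℤ) • y) i) := by
      rw [hQ, cn_sm, cn_sm]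
    have h2 : ∀ i, cn (x, (p : ℤ) • y) i ≤ J i := by
      refine cn_le.2 ⟨fun i => ?_, fun i => ?_⟩
      · rw [← sp_le, hJ i]
        exact le_add_right'
      · rw [← sp_le, hJ i]
        refine le_trans ?_ le_add_left'
        change sp (((p : ℤ) • y) i) ≤ _
        rw [hpy, sp_mul]
        gcongr
        exact hy' i
    have h3 : sp (un u i) = 1 := sp_unit (u i)
    rw [h1, h3, one_mul, ← hJr i]
    gcongr
    exact h2 i
  · rw [hQ, pm_vc_sm, pm_vc_sm, nA_sp_unit, mat_eq, pm_vc_glq]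
    have e1 : |(((1 : ℤ) : ℚ) : ℝ) * (((p : ℤ) : ℚ) : ℝ) - (((0 : ℤ) : ℚ) : ℝ) *
        (((0 : ℤ) : ℚ) : ℝ)| = (p : ℝ) := by
      simp
    rw [e1]
    have e2 : ((1 : ℚ) : ℝ) = 1 := by simp
    rw [e2, one_pow, one_mul]
    have f1 : (0 : ℝ) < ((nA (cf I) : ℚ) : ℝ) := by exact_mod_cast hIpos
    have f2 : (0 : ℝ) < ((nA (cf r) : ℚ) : ℝ) := by exact_mod_cast hrpos
    have f3 : (0 : ℝ) < ((nA (fun i => sp (a i)) : ℚ) : ℝ) := by exact_mod_cast hapos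
    have f4 : (0 : ℝ) < p := by exact_mod_cast hp.pos
    have f5 : ((nA (fun i => sp (a⁻¹ i)) : ℚ) : ℝ) * ((nA (fun i => sp (a i)) : ℚ) : ℝ) = 1 := by
      exact_mod_cast hnai
    have f6 : ((nA (fun i => sp (a i)) : ℚ) : ℝ) * ((nA (cf r) : ℚ) : ℝ) =
        (p : ℝ) ^ m * ((nA (cf I) : ℚ) : ℝ) := by exact_mod_cast hnJ
    obtain ⟨α, hα⟩ : ∃ α, α = ((nA (fun i => sp (a i)) : ℚ) : ℝ) := ⟨_, rfl⟩
    obtain ⟨β, hβ⟩ : ∃ β, β = ((nA (fun i => sp (a⁻¹ i)) : ℚ) : ℝ) := ⟨_, rfl⟩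
    obtain ⟨ρ, hρ⟩ : ∃ ρ, ρ = ((nA (cf r) : ℚ) : ℝ) := ⟨_, rfl⟩
    obtain ⟨ν, hν⟩ : ∃ ν, ν = ((nA (cf I) : ℚ) : ℝ) := ⟨_, rfl⟩
    rw [← hα] at f3 f5 f6
    rw [← hβ] at f5 ⊢
    rw [← hρ] at f2 f6 ⊢
    rw [← hν] at f1 f6 ⊢
    have g1 : β * ((p : ℝ) ^ m * ν) = ρ := by
      rw [← f6, ← mul_assoc, f5, one_mul]
    have g2 : β ^ 2 * (p : ℝ) ^ dg K = ρ ^ 2 / ν ^ 2 / p := by
      rw [div_div, eq_div_iff (by positivity), ← g1]
      have : (p : ℝ) ^ m * (p : ℝ) ^ m = (p : ℝ) ^ dg K * p := by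
        rw [← pow_add, ← two_mul, hm, pow_succ]
      calc β ^ 2 * (p : ℝ) ^ dg K * (ν ^ 2 * p) =
          β ^ 2 * ν ^ 2 * ((p : ℝ) ^ dg K * p) := by ring
        _ = β ^ 2 * ν ^ 2 * ((p : ℝ) ^ m * (p : ℝ) ^ m) := by rw [this]
        _ = _ := by ring
    calc β ^ 2 * ((p : ℝ) ^ dg K * pm (vc (x, y))) =
        (β ^ 2 * (p : ℝ) ^ dg K) * pm (vc (x, y)) := by ring
      _ ≤ (ρ ^ 2 / ν ^ 2 / p) * t := by rw [g2]; gcongr
      _ = (ρ ^ 2 / ν ^ 2) * (t / p) := by ring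
      _ ≤ (ρ ^ 2 / ν ^ 2) * (t / X) := by
          gcongr
  · have e2 : (fun i => sp (p : K i) * (r i : FI (K i)) + sp (Q.2 i)) =
        fun i => (sp (p : K i) * sp (a⁻¹ i)) * (J i + sp (y i)) := by
      funext i
      have e1 : Q.2 i = un u i * (a⁻¹ i * ((p : K i) * y i)) := by
        rw [hQ, ← hpy]
        rfl
      have h3 : sp (un u i) = 1 := sp_unit (u i)
      rw [e1, sp_mul, sp_mul, sp_mul, h3, ← hJr i]
      ring
    have hJy : ∀ i, J i + sp (y i) ≤ cf I i := by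
      intro i
      rw [← sup_eq_add]
      exact sup_le (hJI i) (hy' i)
    have hJ0 : ∀ i, J i ≠ 0 := by
      intro i
      rw [hr i]
      exact mul_ne_zero (sp_ne (ha i)) (Units.ne_zero (r i))
    have hJy0 : ∀ i, J i + sp (y i) ≠ 0 := by
      intro i h0
      have : J i ≤ J i + sp (y i) := le_add_left'
      rw [h0] at this
      exact hJ0 i (le_antisymm this (zero_le _))
    have h1 : nA (cf I) ≤ nA (fun i => J i + sp (y i)) := nA_anti hJy0 hJy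
    have h2 : nA (fun i => (sp (p : K i) * sp (a⁻¹ i)) * (J i + sp (y i))) =
        (p : ℚ) ^ dg K * nA (fun i => sp (a⁻¹ i)) * nA (fun i => J i + sp (y i)) := by
      rw [nA_mul (fun i => sp (p : K i) * sp (a⁻¹ i)), nA_mul (fun i => sp (p : K i)), nA_natCast]
    rw [e2, h2]
    have h3 : nA (cf r) = nA (fun i => sp (a⁻¹ i)) * ((p : ℚ) ^ m * nA (cf I)) := by
      rw [← hnJ, ← mul_assoc, hnai, one_mul]
    have h4 : 0 < nA (fun i => sp (a⁻¹ i)) := nA_pos fun i => sp_ne (hai i)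
    have h5 : (p : ℚ) ^ (2 + m) ≤ (p : ℚ) ^ dg K := by
      refine pow_le_pow_right₀ (by exact_mod_cast hp.one_le) (by omega)
    calc (p : ℚ) ^ 2 * nA (cf r) = (p : ℚ) ^ (2 + m) * nA (fun i => sp (a⁻¹ i)) * nA (cf I) := by
          rw [h3, pow_add]; ring
      _ ≤ (p : ℚ) ^ dg K * nA (fun i => sp (a⁻¹ i)) * nA (fun i => J i + sp (y i)) := by gcongr

/-- normalisation of the transformed pair before scaling -/
theorem nz_mul (hodd : Odd (dg K)) (hn : 2 ≤ dg K) {κ : Ux K → ℝ}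
    {p : ℕ} (hp : p.Prime) {x y : Al K} (hNd : ND (x, y)) (hNz : NZ κ (vc (x, y))) :
    ND (x, (p : ℤ) • y) ∧ NZ κ (vc (x, (p : ℤ) • y)) := by
  refine ⟨?_, ?_⟩
  · rw [mat_eq]
    exact hNd.glq (det_ne hp)
  · unfold NZ
    rw [mat_eq, cc_vc_glq hodd (det_ne hp) (hNd.pm_pos hn)]
    exact hNz

/-- two normalised lattices which differ by units differ by torsion -/
theorem tors (hodd : Odd (dg K)) (hn : 2 ≤ dg K) {κ : Ux K → ℝ} {P P' : Al K × Al K}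
    (hP : ND P) (hZ : NZ κ (vc P)) (hP' : ND P') (hZ' : NZ κ (vc P')) {c : Al K}
    (hc : ∀ i, c i ≠ 0) (u u' : ∀ i, (𝓞 (K i))ˣ)
    (hL : LT (sm (un u) (sm c P)) = LT (sm (un u') (sm c P'))) (i : s) :
    (u' i)⁻¹ * u i ∈ Units.torsion (K i) := by
  obtain ⟨w, hw⟩ : ∃ w : ∀ i, (𝓞 (K i))ˣ, w = fun i => (u' i)⁻¹ * u i := ⟨_, rfl⟩
  have hwK : un u = un u' * un w := by
    funext i
    have h1 : (u i : 𝓞 (K i)) = (u' i : 𝓞 (K i)) * (w i : 𝓞 (K i)) := by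
      rw [hw]
      simp only
      rw [Units.val_mul, ← mul_assoc, Units.mul_inv, one_mul]
    have := congrArg (algebraMap (𝓞 (K i)) (K i)) h1
    rw [map_mul] at this
    exact this
  have e1 : sm (un u) (sm c P) = sm (un u' * c) (sm (un w) P) := by
    rw [sm_sm, sm_sm, hwK]
    congr 1
    ring
  rw [e1, sm_sm (un u')] at hL
  have h1 := LT_cancel (c := un u' * c) (fun i => mul_ne_zero (un_ne u' i) (hc i)) hL
  have h2 := (LT_inv hodd hn hP' h1.symm).2.2.1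
  have h3 : NZ κ (fun e => e.2 (un w e.1) • vc P e) := by
    rw [← vc_sm]
    unfold NZ
    rw [h2]
    exact hZ'
  have h4 := (unt (K := K) (vc P) (hP.pm_pos hn) (pm_ext_pos hodd (hP.pm_pos hn))).2.2.1 κ w hZ h3 i
  rw [hw] at h4
  exact h4

/-- uniqueness of the lattice -/
theorem uniq (h5 : S_SUPI K) (hn : 5 ≤ dg K) {m : ℕ}
    (hm : 2 * m = dg K + 1) {I : FU K} {p : ℕ}
    (hp : p.Prime) {x y x' y' : Al K} (hNd : ND (x, y)) (hNd' : ND (x', y'))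
    (hct : ∀ i, cn (x, y) i ≤ I i) (hct' : ∀ i, cn (x', y') i ≤ I i)
    (hJn : nA (fun i => sp (p : K i) * (I i : FI (K i)) + sp (x i)) = (p : ℚ) ^ m * nA (cf I))
    {c : Al K} (hc : ∀ i, c i ≠ 0)
    (hL : LT (sm c (x, (p : ℤ) • y)) = LT (sm c (x', (p : ℤ) • y'))) :
    LT (x, y) = LT (x', y') := by
  have hn2 : 2 ≤ dg K := by omega
  refine h5 p hp I x y x' y' (hNd.ind hn2) (hNd'.ind hn2) hct hct' (LT_cancel hc hL) ?_
  by_contra h0
  push Not at h0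
  have h1 : (fun i => sp (p : K i) * (I i : FI (K i)) + sp (x i)) =
      fun i => sp (p : K i) * cf I i := funext h0
  rw [h1, nA_mul (fun i => sp (p : K i)), nA_natCast] at hJn
  have h7 := mul_right_cancel₀ (nA_pos (J := cf I) fun i => Units.ne_zero (I i)).ne' hJn
  have h8 : dg K = m := by
    have h9 : (p : ℕ) ^ dg K = p ^ m := by exact_mod_cast h7
    exact Nat.pow_right_injective hp.two_le h9
  omega

end

end Pool.Agent.Y79.KE
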